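import Pool.Agent.Lib_MP_0e3657_rd.Defs

/-!
# MP_0e3657_pr: the entropy form of rapid decay

If `‖f * φ‖₂² ≤ (Σ f² W) ‖φ‖₂²` for all finitely supported `f`, `φ`, then
`H(μ) + H(σ) ≤ H(μ * σ) + Σ μ log W` for all probability measures `μ`, `σ` of finite entropy.

Proof.  `H(μ) + H(σ) - H(μ * σ) - Σ μ log W = 2 Σ_{g, x} μ(g) σ(g⁻¹ x) log √((μ * σ)(x) / (μ(g) σ(g⁻¹ x) W(g)))`, and
`log t ≤ t - 1` bounds it by `2 ⟨f * √σ, √(μ * σ)⟩ - 2 ≤ 0` with `f = √(μ / W)`.
-/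

set_option autoImplicit false

open scoped ENNReal
open Filter

namespace Pool.MP_0e3657_pr

section group

variable {G : Type*} [Group G]

theorem DecayWeight.one_le {W : G → ℝ} (h : DecayWeight W) (g : G) : 1 ≤ W g := by
  classical
  have h1 := h (fun x => if x = g then 1 else 0) (fun x => if x = 1 then 1 else 0)
    ((Set.finite_singleton g).subset fun x hx => by
      by_contra h
      exact hx (if_neg h))
    ((Set.finite_singleton (1 : G)).subset fun x hx => by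
      by_contra h
      exact hx (if_neg h)) {g}
  have h2 : conv (fun x : G => if x = g then (1 : ℝ) else 0) (fun x : G => if x = 1 then (1 : ℝ) else 0) g = 1 := by
    unfold conv
    rw [tsum_eq_single g]
    · simp
    · intro b hb
      simp [hb]
  have h3 : ∑' x : G, (if x = g then (1 : ℝ) else 0) ^ 2 * W x = W g := by
    rw [tsum_eq_single g]
    · simp
    · intro b hb
      simp [hb]
  have h4 : ∑' x : G, (if x = 1 then (1 : ℝ) else 0) ^ 2 = 1 := by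
    rw [tsum_eq_single 1]
    · simp
    · intro b hb
      simp [hb]
  rw [Finset.sum_singleton, h2, h3, h4] at h1
  linarith

theorem DecayWeight.mono {W W' : G → ℝ} (h : DecayWeight W) (hW : ∀ g, W g ≤ W' g) : DecayWeight W' := by
  intro f φ hf hφ X
  refine (h f φ hf hφ X).trans (mul_le_mul_of_nonneg_right ?_ (tsum_nonneg fun y => sq_nonneg _))
  have hs : ∀ V : G → ℝ, Summable fun g => f g ^ 2 * V g := fun V =>
    summable_of_hasFiniteSupport (hf.subset fun g hg => by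
      intro h0
      apply hg
      show f g ^ 2 * V g = 0
      rw [show f g = 0 from h0]
      simp)
  exact (hs W).tsum_le_tsum (fun g => mul_le_mul_of_nonneg_left (hW g) (sq_nonneg _)) (hs W')

/-- the bilinear form on finite sets -/
theorem bilinear_decay {μ σ g W : G → ℝ} (hμ : IsProb μ) (hσ : IsProb σ) (hg : IsProb g)
    (hW : DecayWeight W) (F : Finset (G × G)) :
    ∑ p ∈ F, Real.sqrt (μ p.1 / W p.1) * (Real.sqrt (σ (p.1⁻¹ * p.2)) * Real.sqrt (g p.2)) ≤ 1 := by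
  classical
  have hW1 := hW.one_le
  have hW0 : ∀ s, 0 < W s := fun s => lt_of_lt_of_le one_pos (hW1 s)
  -- finite supports
  let S : Finset G := F.image Prod.fst
  let Y : Finset G := F.image fun p => p.1⁻¹ * p.2
  let X : Finset G := F.image Prod.snd
  let f : G → ℝ := fun s => if s ∈ S then Real.sqrt (μ s / W s) else 0
  let φ : G → ℝ := fun y => if y ∈ Y then Real.sqrt (σ y) else 0
  have hf0 : ∀ s, 0 ≤ f s := fun s => by
    simp only [f]
    split_ifs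
    · exact Real.sqrt_nonneg _
    · exact le_rfl
  have hφ0 : ∀ y, 0 ≤ φ y := fun y => by
    simp only [φ]
    split_ifs
    · exact Real.sqrt_nonneg _
    · exact le_rfl
  have hfinf : (Function.support f).Finite := S.finite_toSet.subset fun y hy => by
    by_contra h
    have h0 : y ∉ S := fun h' => h (Finset.mem_coe.2 h')
    exact hy (if_neg h0)
  have hfin : (Function.support φ).Finite := Y.finite_toSet.subset fun y hy => by
    by_contra h
    have h0 : y ∉ Y := fun h' => h (Finset.mem_coe.2 h')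
    exact hy (if_neg h0)
  have hsumm : ∀ x, Summable fun s => f s * φ (s⁻¹ * x) := fun x =>
    summable_of_hasFiniteSupport (hfinf.subset fun s hs => by
      intro h0
      apply hs
      show f s * φ (s⁻¹ * x) = 0
      rw [show f s = 0 from h0, zero_mul])
  -- the sum over `F` is at most the sum over `X` of `√g * (f * φ)`
  have h1 : ∑ p ∈ F, Real.sqrt (μ p.1 / W p.1) * (Real.sqrt (σ (p.1⁻¹ * p.2)) * Real.sqrt (g p.2)) ≤
      ∑ x ∈ X, Real.sqrt (g x) * conv f φ x := by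
    have h2 : ∀ p ∈ F, Real.sqrt (μ p.1 / W p.1) * (Real.sqrt (σ (p.1⁻¹ * p.2)) * Real.sqrt (g p.2)) =
        Real.sqrt (g p.2) * (f p.1 * φ (p.1⁻¹ * p.2)) := fun p hp => by
      have h3 : p.1⁻¹ * p.2 ∈ Y := Finset.mem_image_of_mem (fun p : G × G => p.1⁻¹ * p.2) hp
      have h3' : p.1 ∈ S := Finset.mem_image_of_mem Prod.fst hp
      simp only [φ, f, if_pos h3, if_pos h3']
      ring
    rw [Finset.sum_congr rfl h2]
    have h4 : ∑ p ∈ F, Real.sqrt (g p.2) * (f p.1 * φ (p.1⁻¹ * p.2)) =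
        ∑ x ∈ X, ∑ p ∈ F with p.2 = x, Real.sqrt (g p.2) * (f p.1 * φ (p.1⁻¹ * p.2)) :=
      (Finset.sum_fiberwise_of_maps_to (fun p hp => Finset.mem_image_of_mem Prod.snd hp) _).symm
    rw [h4]
    refine Finset.sum_le_sum fun x _ => ?_
    have h5 : ∑ p ∈ F with p.2 = x, Real.sqrt (g p.2) * (f p.1 * φ (p.1⁻¹ * p.2)) =
        Real.sqrt (g x) * ∑ s ∈ (F.filter fun p => p.2 = x).image Prod.fst, f s * φ (s⁻¹ * x) := by
      rw [Finset.sum_image, Finset.mul_sum]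
      · refine Finset.sum_congr rfl fun p hp => ?_
        rw [(Finset.mem_filter.1 hp).2]
      · intro p hp q hq hpq
        have h6 := (Finset.mem_filter.1 (Finset.mem_coe.1 hp)).2
        have h7 := (Finset.mem_filter.1 (Finset.mem_coe.1 hq)).2
        exact Prod.ext hpq (h6.trans h7.symm)
    rw [h5]
    refine mul_le_mul_of_nonneg_left ?_ (Real.sqrt_nonneg _)
    exact (hsumm x).sum_le_tsum _ fun s _ => mul_nonneg (hf0 _) (hφ0 _)
  refine h1.trans ?_
  -- Cauchy-Schwarz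
  have h2 := Finset.sum_mul_sq_le_sq_mul_sq X (fun x => Real.sqrt (g x)) (conv f φ)
  have h3 : ∑ x ∈ X, Real.sqrt (g x) ^ 2 ≤ 1 := by
    have : ∑ x ∈ X, Real.sqrt (g x) ^ 2 = ∑ x ∈ X, g x :=
      Finset.sum_congr rfl fun x _ => Real.sq_sqrt (hg.nonneg x)
    rw [this]
    exact sum_le_hasSum X (fun x _ => hg.nonneg x) hg.hasSum
  have h4 : ∑' y, φ y ^ 2 ≤ 1 := by
    rw [← hσ.hasSum.tsum_eq]
    have h5 : ∀ y, φ y ^ 2 ≤ σ y := fun y => by
      simp only [φ]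
      split_ifs
      · rw [Real.sq_sqrt (hσ.nonneg y)]
      · simpa using hσ.nonneg y
    exact (Summable.of_nonneg_of_le (fun y => sq_nonneg _) h5 hσ.hasSum.summable).tsum_le_tsum h5 hσ.hasSum.summable
  have h4' : ∑' s, f s ^ 2 * W s ≤ 1 := by
    rw [← hμ.hasSum.tsum_eq]
    have h5 : ∀ s, f s ^ 2 * W s ≤ μ s := fun s => by
      simp only [f]
      split_ifs
      · rw [Real.sq_sqrt (div_nonneg (hμ.nonneg s) (hW0 s).le), div_mul_cancel₀ _ (hW0 s).ne']
      · simpa using hμ.nonneg s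
    exact (Summable.of_nonneg_of_le (fun s => mul_nonneg (sq_nonneg _) (hW0 s).le) h5
      hμ.hasSum.summable).tsum_le_tsum h5 hμ.hasSum.summable
  have h5 := hW f φ hfinf hfin X
  have h6 : ∑ x ∈ X, conv f φ x ^ 2 ≤ 1 :=
    h5.trans (mul_le_one₀ h4' (tsum_nonneg fun y => sq_nonneg _) h4)
  have h7 : 0 ≤ ∑ x ∈ X, conv f φ x ^ 2 := Finset.sum_nonneg fun x _ => sq_nonneg _
  have h8 : (∑ x ∈ X, Real.sqrt (g x) * conv f φ x) ^ 2 ≤ 1 ^ 2 := by nlinarith
  exact (abs_le_of_sq_le_sq' h8 zero_le_one).2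

/-- the entropy form of rapid decay, in `[0, ∞]` -/
theorem entE_decay {μ σ W : G → ℝ} (hμ : IsProb μ) (hσ : IsProb σ) (hW : DecayWeight W) :
    entE μ + entE σ ≤ entE (conv μ σ) + ∑' g, ENNReal.ofReal (μ g * Real.log (W g)) := by
  have hg := isProb_conv hμ hσ
  set g := conv μ σ with hgdef
  have hW1 := hW.one_le
  have hW0 : ∀ s, 0 < W s := fun s => lt_of_lt_of_le one_pos (hW1 s)
  have hlW : ∀ s, 0 ≤ Real.log (W s) := fun s => Real.log_nonneg (hW1 s)
  -- the pointwise inequality at `s`, `x`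
  have hpt : ∀ s x, μ s * Real.negMulLog (σ (s⁻¹ * x)) + σ (s⁻¹ * x) * Real.negMulLog (μ s) +
      μ s * σ (s⁻¹ * x) * 2 ≤
      μ s * σ (s⁻¹ * x) * -Real.log (g x) + μ s * Real.log (W s) * σ (s⁻¹ * x) +
        2 * (Real.sqrt (μ s / W s) * (Real.sqrt (σ (s⁻¹ * x)) * Real.sqrt (g x))) := by
    intro s x
    rcases (hμ.nonneg s).eq_or_lt with h0 | h0
    · rw [← h0]; simp
    rcases (hσ.nonneg (s⁻¹ * x)).eq_or_lt with h1 | h1
    · rw [← h1]; simp
    have h2 : 0 < g x := by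
      refine lt_of_lt_of_le (mul_pos h0 h1) ?_
      exact (summable_conv hμ.nonneg hμ.hasSum hσ x).le_tsum s fun t _ => mul_nonneg (hμ.nonneg t) (hσ.nonneg _)
    set y := σ (s⁻¹ * x)
    set w := W s
    have hw : 0 < w := hW0 s
    have hq : 0 < μ s * y * w := mul_pos (mul_pos h0 h1) hw
    have h3 : 0 < Real.sqrt (g x / (μ s * y * w)) := Real.sqrt_pos.2 (div_pos h2 hq)
    have h4 := Real.log_le_sub_one_of_pos h3
    rw [Real.log_sqrt (div_pos h2 hq).le, Real.log_div h2.ne' hq.ne', Real.log_mul (mul_pos h0 h1).ne' hw.ne',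
      Real.log_mul h0.ne' h1.ne'] at h4
    have h5 : μ s * y * Real.sqrt (g x / (μ s * y * w)) =
        Real.sqrt (μ s / w) * (Real.sqrt y * Real.sqrt (g x)) := by
      rw [← Real.sqrt_mul h1.le, ← Real.sqrt_mul (div_pos h0 hw).le]
      have h6 : μ s * y * Real.sqrt (g x / (μ s * y * w)) = Real.sqrt ((μ s * y) ^ 2 * (g x / (μ s * y * w))) := by
        rw [Real.sqrt_mul (sq_nonneg _), Real.sqrt_sq (mul_pos h0 h1).le]
      rw [h6]
      congr 1
      have := h0.ne'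
      have := h1.ne'
      have := hw.ne'
      field_simp
    rw [← h5]
    have h6 : 0 < μ s * y := mul_pos h0 h1
    unfold Real.negMulLog
    nlinarith [mul_le_mul_of_nonneg_left h4 h6.le]
  -- in `[0, ∞]`
  have hE : ∀ s x, ENNReal.ofReal (μ s) * Φ (σ (s⁻¹ * x)) + ENNReal.ofReal (σ (s⁻¹ * x)) * Φ (μ s) +
      ENNReal.ofReal (μ s * σ (s⁻¹ * x)) * 2 ≤
      ENNReal.ofReal (μ s * σ (s⁻¹ * x)) * ENNReal.ofReal (-Real.log (g x)) +
        ENNReal.ofReal (μ s * Real.log (W s)) * ENNReal.ofReal (σ (s⁻¹ * x)) +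
        2 * ENNReal.ofReal (Real.sqrt (μ s / W s) * (Real.sqrt (σ (s⁻¹ * x)) * Real.sqrt (g x))) := by
    intro s x
    have h1 := hμ.nonneg s
    have h2 := hσ.nonneg (s⁻¹ * x)
    have h3 : 0 ≤ -Real.log (g x) := by
      linarith [Real.log_nonpos (hg.nonneg x) (hg.le_one x)]
    have h4 := negMulLog_nonneg' h2 (hσ.le_one (s⁻¹ * x))
    have h4' := negMulLog_nonneg' h1 (hμ.le_one s)
    have h5 : 0 ≤ μ s * Real.log (W s) := mul_nonneg h1 (hlW s)
    have h6 : (2 : ℝ≥0∞) = ENNReal.ofReal 2 := by simp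
    have h7 : 0 ≤ Real.sqrt (μ s / W s) * (Real.sqrt (σ (s⁻¹ * x)) * Real.sqrt (g x)) :=
      mul_nonneg (Real.sqrt_nonneg _) (mul_nonneg (Real.sqrt_nonneg _) (Real.sqrt_nonneg _))
    unfold Φ
    rw [h6, ← ENNReal.ofReal_mul h1, ← ENNReal.ofReal_mul h2, ← ENNReal.ofReal_mul (mul_nonneg h1 h2),
      ← ENNReal.ofReal_mul (mul_nonneg h1 h2), ← ENNReal.ofReal_mul h5, ← ENNReal.ofReal_mul (by norm_num : (0 : ℝ) ≤ 2),
      ← ENNReal.ofReal_add (mul_nonneg h1 h4) (mul_nonneg h2 h4'),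
      ← ENNReal.ofReal_add (add_nonneg (mul_nonneg h1 h4) (mul_nonneg h2 h4')) (mul_nonneg (mul_nonneg h1 h2) (by norm_num)),
      ← ENNReal.ofReal_add (mul_nonneg (mul_nonneg h1 h2) h3) (mul_nonneg h5 h2),
      ← ENNReal.ofReal_add (add_nonneg (mul_nonneg (mul_nonneg h1 h2) h3) (mul_nonneg h5 h2)) (mul_nonneg (by norm_num) h7)]
    exact ENNReal.ofReal_le_ofReal (hpt s x)
  -- sums
  have hcol : ∀ s, ∑' x, ENNReal.ofReal (σ (s⁻¹ * x)) = 1 := fun s => by
    rw [← ENNReal.ofReal_tsum_of_nonneg (fun x => hσ.nonneg _) (hasSum_shift hσ s).summable, (hasSum_shift hσ s).tsum_eq]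
    simp
  have hsum1 : ∑' x, ∑' s, ENNReal.ofReal (μ s) * Φ (σ (s⁻¹ * x)) = entE σ := by
    rw [ENNReal.tsum_comm]
    have : ∀ s, ∑' x, ENNReal.ofReal (μ s) * Φ (σ (s⁻¹ * x)) = ENNReal.ofReal (μ s) * entE σ := fun s => by
      rw [ENNReal.tsum_mul_left, entE_shift]
    simp_rw [this]
    rw [ENNReal.tsum_mul_right, ← ENNReal.ofReal_tsum_of_nonneg hμ.nonneg hμ.hasSum.summable, hμ.hasSum.tsum_eq]
    simp
  have hsum1' : ∑' x, ∑' s, ENNReal.ofReal (σ (s⁻¹ * x)) * Φ (μ s) = entE μ := by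
    rw [ENNReal.tsum_comm]
    have : ∀ s, ∑' x, ENNReal.ofReal (σ (s⁻¹ * x)) * Φ (μ s) = Φ (μ s) := fun s => by
      rw [ENNReal.tsum_mul_right, hcol, one_mul]
    simp_rw [this]
    rfl
  have hrow : ∀ x, ∑' s, ENNReal.ofReal (μ s * σ (s⁻¹ * x)) = ENNReal.ofReal (g x) := fun x => by
    rw [← ENNReal.ofReal_tsum_of_nonneg (fun s => mul_nonneg (hμ.nonneg _) (hσ.nonneg _))
      (summable_conv hμ.nonneg hμ.hasSum hσ x)]
    rfl
  have hgsum : ∑' x, ENNReal.ofReal (g x) = 1 := by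
    rw [← ENNReal.ofReal_tsum_of_nonneg hg.nonneg hg.hasSum.summable, hg.hasSum.tsum_eq]
    simp
  have hsum2 : ∑' x, ∑' s, ENNReal.ofReal (μ s * σ (s⁻¹ * x)) * (2 : ℝ≥0∞) = 2 := by
    simp_rw [ENNReal.tsum_mul_right, hrow]
    rw [hgsum, one_mul]
  have hsum3 : ∑' x, ∑' s, ENNReal.ofReal (μ s * σ (s⁻¹ * x)) * ENNReal.ofReal (-Real.log (g x)) = entE g := by
    simp_rw [ENNReal.tsum_mul_right, hrow]
    unfold entE Φ Real.negMulLog
    refine tsum_congr fun x => ?_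
    rw [← ENNReal.ofReal_mul (hg.nonneg x)]
    congr 1
    ring
  have hsum3' : ∑' x, ∑' s, ENNReal.ofReal (μ s * Real.log (W s)) * ENNReal.ofReal (σ (s⁻¹ * x)) =
      ∑' s, ENNReal.ofReal (μ s * Real.log (W s)) := by
    rw [ENNReal.tsum_comm]
    refine tsum_congr fun s => ?_
    rw [ENNReal.tsum_mul_left, hcol, mul_one]
  have hsum4 : ∑' x, ∑' s, (2 : ℝ≥0∞) *
      ENNReal.ofReal (Real.sqrt (μ s / W s) * (Real.sqrt (σ (s⁻¹ * x)) * Real.sqrt (g x))) ≤ 2 := by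
    simp_rw [ENNReal.tsum_mul_left]
    have h1 : ∑' x, ∑' s, ENNReal.ofReal (Real.sqrt (μ s / W s) * (Real.sqrt (σ (s⁻¹ * x)) * Real.sqrt (g x))) ≤ 1 := by
      rw [ENNReal.tsum_comm]
      rw [← ENNReal.tsum_prod' (f := fun p : G × G =>
        ENNReal.ofReal (Real.sqrt (μ p.1 / W p.1) * (Real.sqrt (σ (p.1⁻¹ * p.2)) * Real.sqrt (g p.2))))]
      rw [ENNReal.tsum_eq_iSup_sum]
      refine iSup_le fun F => ?_
      rw [← ENNReal.ofReal_sum_of_nonneg fun p _ => mul_nonneg (Real.sqrt_nonneg _)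
        (mul_nonneg (Real.sqrt_nonneg _) (Real.sqrt_nonneg _))]
      rw [← ENNReal.ofReal_one]
      exact ENNReal.ofReal_le_ofReal (bilinear_decay hμ hσ hg hW F)
    calc _ ≤ (2 : ℝ≥0∞) * 1 := mul_le_mul_right h1 _
      _ = 2 := mul_one _
  have hfin : entE σ + entE μ + 2 ≤ entE g + (∑' s, ENNReal.ofReal (μ s * Real.log (W s))) + 2 := by
    calc entE σ + entE μ + 2 = (∑' x, ∑' s, ENNReal.ofReal (μ s) * Φ (σ (s⁻¹ * x))) +
          (∑' x, ∑' s, ENNReal.ofReal (σ (s⁻¹ * x)) * Φ (μ s)) +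
          ∑' x, ∑' s, ENNReal.ofReal (μ s * σ (s⁻¹ * x)) * (2 : ℝ≥0∞) := by rw [hsum1, hsum1', hsum2]
      _ = ∑' x, ∑' s, (ENNReal.ofReal (μ s) * Φ (σ (s⁻¹ * x)) + ENNReal.ofReal (σ (s⁻¹ * x)) * Φ (μ s) +
          ENNReal.ofReal (μ s * σ (s⁻¹ * x)) * 2) := by simp_rw [ENNReal.tsum_add]
      _ ≤ ∑' x, ∑' s, (ENNReal.ofReal (μ s * σ (s⁻¹ * x)) * ENNReal.ofReal (-Real.log (g x)) +
          ENNReal.ofReal (μ s * Real.log (W s)) * ENNReal.ofReal (σ (s⁻¹ * x)) +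
          2 * ENNReal.ofReal (Real.sqrt (μ s / W s) * (Real.sqrt (σ (s⁻¹ * x)) * Real.sqrt (g x)))) :=
        ENNReal.tsum_le_tsum fun x => ENNReal.tsum_le_tsum fun s => hE s x
      _ = entE g + (∑' s, ENNReal.ofReal (μ s * Real.log (W s))) + ∑' x, ∑' s, (2 : ℝ≥0∞) *
          ENNReal.ofReal (Real.sqrt (μ s / W s) * (Real.sqrt (σ (s⁻¹ * x)) * Real.sqrt (g x))) := by
        simp_rw [ENNReal.tsum_add]
        rw [hsum3, hsum3']
      _ ≤ _ := add_le_add le_rfl hsum4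
  have h := (ENNReal.add_le_add_iff_right (by norm_num)).1 hfin
  rwa [add_comm (entE σ)] at h

/-- the entropy form of rapid decay -/
theorem shannon_decay {μ σ W : G → ℝ} (hμ : FinEnt μ) (hσ : FinEnt σ) (hW : DecayWeight W)
    (hs : Summable fun g => μ g * Real.log (W g)) :
    shannon μ + shannon σ ≤ shannon (conv μ σ) + ∑' g, μ g * Real.log (W g) := by
  have h1 := entE_decay hμ.isProb hσ.isProb hW
  have hlW : ∀ s, 0 ≤ Real.log (W s) := fun s => Real.log_nonneg (hW.one_le s)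
  have h0 : ∀ g, 0 ≤ μ g * Real.log (W g) := fun g => mul_nonneg (hμ.nonneg g) (hlW g)
  rw [← ENNReal.ofReal_tsum_of_nonneg h0 hs] at h1
  have h2 := ENNReal.toReal_mono (ENNReal.add_ne_top.2 ⟨(hμ.conv hσ).ne_top, ENNReal.ofReal_ne_top⟩) h1
  rw [ENNReal.toReal_add hμ.ne_top hσ.ne_top, ENNReal.toReal_add (hμ.conv hσ).ne_top ENNReal.ofReal_ne_top,
    ENNReal.toReal_ofReal (tsum_nonneg h0), ← hμ.shannon_eq, ← hσ.shannon_eq, ← (hμ.conv hσ).shannon_eq] at h2
  exact h2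

theorem gain_decay {μ W : G → ℝ} (hμ : FinEnt μ) (hW : DecayWeight W)
    (hs : Summable fun g => μ g * Real.log (W g)) :
    shannon μ - ∑' g, μ g * Real.log (W g) ≤ gain μ :=
  le_gain fun σ hσ => by
    have := shannon_decay hμ hσ hW hs
    linarith

end group

end Pool.MP_0e3657_pr
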