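import Pool.Agent.Lib_MP_0e3657_pr.Main

/-!
# MP_0e3657_pr: rapid decay and its entropic form, definitions
-/

set_option autoImplicit false

namespace Pool.MP_0e3657_pr

variable {G : Type*} [Group G]

/-- `W` is a decay weight: `‖f * φ‖₂² ≤ (Σ_g f(g)² W(g)) ‖φ‖₂²` for all finitely supported `f`, `φ` -/
def DecayWeight (W : G → ℝ) : Prop :=
  ∀ f φ : G → ℝ, (Function.support f).Finite → (Function.support φ).Finite → ∀ X : Finset G,
    ∑ x ∈ X, conv f φ x ^ 2 ≤ (∑' g, f g ^ 2 * W g) * ∑' y, φ y ^ 2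

/-- nonnegative subadditive functions (for instance the length functions) -/
structure IsLength (ℓ : G → ℝ) : Prop where
  nonneg : ∀ g, 0 ≤ ℓ g
  mul_le : ∀ g h, ℓ (g * h) ≤ ℓ g + ℓ h

/-- rapid decay: `‖f * φ‖₂² ≤ C (Σ f² (1 + ℓ)^s) ‖φ‖₂²` for all finitely supported `f`, `φ` -/
def RapidDecay (ℓ : G → ℝ) (C s : ℝ) : Prop := DecayWeight fun g => C * (1 + ℓ g) ^ s

/-- subexponential decay: for every `ε > 0` there is `C` with `‖f * φ‖₂² ≤ C (Σ f² exp(ε ℓ)) ‖φ‖₂²` for all finitely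
supported `f`, `φ` -/
def SubexpDecay (ℓ : G → ℝ) : Prop := ∀ ε > 0, ∃ C, DecayWeight fun g => C * Real.exp (ε * ℓ g)

/-- entropic rapid decay: `H(X) + H(Z) ≤ H(X Z) + B + s E log (1 + ℓ(X))` for all independent `X`, `Z` of finite entropy
with `E log (1 + ℓ(X)) < ∞` -/
def EntropicDecay (ℓ : G → ℝ) (B s : ℝ) : Prop :=
  ∀ μ σ : G → ℝ, FinEnt μ → FinEnt σ → (Summable fun g => μ g * Real.log (1 + ℓ g)) →
    shannon μ + shannon σ ≤ shannon (conv μ σ) + B + s * ∑' g, μ g * Real.log (1 + ℓ g)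

/-- entropic subexponential decay: for every `ε > 0` there is `B` with `H(X) + H(Z) ≤ H(X Z) + B + ε E ℓ(X)` for all
independent `X`, `Z` of finite entropy with `E ℓ(X) < ∞` -/
def EntropicSubexp (ℓ : G → ℝ) : Prop :=
  ∀ ε > 0, ∃ B : ℝ, ∀ μ σ : G → ℝ, FinEnt μ → FinEnt σ → (Summable fun g => μ g * ℓ g) →
    shannon μ + shannon σ ≤ shannon (conv μ σ) + B + ε * ∑' g, μ g * ℓ g

end Pool.MP_0e3657_pr
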