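import Pool.Agent.Lib_MP_0e3657_rd.Decay

/-!
# MP_0e3657_pr: moments of subadditive functions, rapid decay and the uniform gain of entropy
-/

set_option autoImplicit false

open scoped ENNReal
open Filter

namespace Pool.MP_0e3657_pr

section group

variable {G : Type*} [Group G]

/-- the moment of a subadditive function under a convolution -/
theorem moment_conv {α β V : G → ℝ} (hα : IsProb α) (hβ : IsProb β) (hV : IsLength V)
    (hsα : Summable fun g => α g * V g) (hsβ : Summable fun g => β g * V g) :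
    (Summable fun g => conv α β g * V g) ∧
      ∑' g, conv α β g * V g ≤ ∑' g, α g * V g + ∑' g, β g * V g := by
  have hα0 : ∀ g, 0 ≤ α g * V g := fun g => mul_nonneg (hα.nonneg g) (hV.nonneg g)
  have hβ0 : ∀ g, 0 ≤ β g * V g := fun g => mul_nonneg (hβ.nonneg g) (hV.nonneg g)
  have hc0 : ∀ g, 0 ≤ conv α β g * V g := fun g => mul_nonneg (conv_nonneg hα.nonneg hβ g) (hV.nonneg g)
  have hrow : ∀ x, ∑' s, ENNReal.ofReal (α s * β (s⁻¹ * x)) = ENNReal.ofReal (conv α β x) := fun x => by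
    rw [← ENNReal.ofReal_tsum_of_nonneg (fun s => mul_nonneg (hα.nonneg _) (hβ.nonneg _))
      (summable_conv hα.nonneg hα.hasSum hβ x)]
    rfl
  have hcol : ∀ s, ∑' x, ENNReal.ofReal (β (s⁻¹ * x)) = 1 := fun s => by
    rw [← ENNReal.ofReal_tsum_of_nonneg (fun x => hβ.nonneg _) (hasSum_shift hβ s).summable, (hasSum_shift hβ s).tsum_eq]
    simp
  have h1 : ∑' x, ENNReal.ofReal (conv α β x * V x) ≤
      (∑' g, ENNReal.ofReal (α g * V g)) + ∑' g, ENNReal.ofReal (β g * V g) := by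
    calc ∑' x, ENNReal.ofReal (conv α β x * V x) = ∑' x, ∑' s, ENNReal.ofReal (α s * β (s⁻¹ * x)) * ENNReal.ofReal (V x) := by
          refine tsum_congr fun x => ?_
          rw [ENNReal.tsum_mul_right, hrow, ENNReal.ofReal_mul (conv_nonneg hα.nonneg hβ x)]
      _ ≤ ∑' x, ∑' s, (ENNReal.ofReal (α s * V s) * ENNReal.ofReal (β (s⁻¹ * x)) +
            ENNReal.ofReal (α s) * ENNReal.ofReal (β (s⁻¹ * x) * V (s⁻¹ * x))) := by
          refine ENNReal.tsum_le_tsum fun x => ENNReal.tsum_le_tsum fun s => ?_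
          have h2 : V x ≤ V s + V (s⁻¹ * x) := by
            have := hV.mul_le s (s⁻¹ * x)
            rwa [mul_inv_cancel_left] at this
          have h3 := hα.nonneg s
          have h4 := hβ.nonneg (s⁻¹ * x)
          have h5 := hV.nonneg s
          have h6 := hV.nonneg (s⁻¹ * x)
          rw [← ENNReal.ofReal_mul (mul_nonneg h3 h4), ← ENNReal.ofReal_mul (mul_nonneg h3 h5),
            ← ENNReal.ofReal_mul h3, ← ENNReal.ofReal_add (by positivity) (by positivity)]
          refine ENNReal.ofReal_le_ofReal ?_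
          nlinarith [mul_le_mul_of_nonneg_left h2 (mul_nonneg h3 h4)]
      _ = (∑' g, ENNReal.ofReal (α g * V g)) + ∑' g, ENNReal.ofReal (β g * V g) := by
          simp_rw [ENNReal.tsum_add]
          congr 1
          · rw [ENNReal.tsum_comm]
            refine tsum_congr fun s => ?_
            rw [ENNReal.tsum_mul_left, hcol, mul_one]
          · rw [ENNReal.tsum_comm]
            have h2 : ∀ s, ∑' x, ENNReal.ofReal (α s) * ENNReal.ofReal (β (s⁻¹ * x) * V (s⁻¹ * x)) =
                ENNReal.ofReal (α s) * ∑' g, ENNReal.ofReal (β g * V g) := fun s => by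
              rw [ENNReal.tsum_mul_left]
              congr 1
              exact (Equiv.mulLeft s⁻¹).tsum_eq fun x => ENNReal.ofReal (β x * V x)
            simp_rw [h2]
            rw [ENNReal.tsum_mul_right, ← ENNReal.ofReal_tsum_of_nonneg hα.nonneg hα.hasSum.summable, hα.hasSum.tsum_eq]
            simp
  rw [← ENNReal.ofReal_tsum_of_nonneg hα0 hsα, ← ENNReal.ofReal_tsum_of_nonneg hβ0 hsβ,
    ← ENNReal.ofReal_add (tsum_nonneg hα0) (tsum_nonneg hβ0)] at h1
  have hs : Summable fun g => conv α β g * V g := by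
    have h2 := ENNReal.summable_toReal (ne_top_of_le_ne_top ENNReal.ofReal_ne_top h1)
    refine h2.congr fun x => ?_
    rw [ENNReal.toReal_ofReal (hc0 x)]
  refine ⟨hs, ?_⟩
  rw [← ENNReal.ofReal_tsum_of_nonneg hc0 hs] at h1
  exact (ENNReal.ofReal_le_ofReal_iff (add_nonneg (tsum_nonneg hα0) (tsum_nonneg hβ0))).1 h1

/-- the moment of a subadditive function under a convolution power -/
theorem moment_cpow {μ V : G → ℝ} (hμ : IsProb μ) (hV : IsLength V) (hs : Summable fun g => μ g * V g) (n : ℕ) :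
    (Summable fun g => cpow μ (n + 1) g * V g) ∧
      ∑' g, cpow μ (n + 1) g * V g ≤ ((n + 1 : ℕ) : ℝ) * ∑' g, μ g * V g := by
  induction n with
  | zero => rw [zero_add, cpow_one]; exact ⟨hs, by simp⟩
  | succ n ih =>
    have h := moment_conv hμ (isProb_cpow hμ (n + 1)) hV hs ih.1
    have h2 : conv μ (cpow μ (n + 1)) = cpow μ (n + 1 + 1) := rfl
    rw [h2] at h
    refine ⟨h.1, h.2.trans ?_⟩
    have := ih.2
    push_cast at this ⊢
    linarith

theorem asympEntropy_le_div {μ : G → ℝ} (hμ : FinEnt μ) (n : ℕ) :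
    asympEntropy μ ≤ shannon (cpow μ (n + 1)) / ((n + 1 : ℕ) : ℝ) := by
  have hb : BddBelow (Set.range fun n : ℕ => shannon (cpow μ n) / n) := ⟨0, by
    rintro _ ⟨n, rfl⟩
    exact div_nonneg (hμ.cpow n).shannon_nonneg (Nat.cast_nonneg n)⟩
  have h := (subadditive_shannon hμ).tendsto_lim hb
  rw [tendsto_nhds_unique (tendsto_asympEntropy hμ) h]
  exact (subadditive_shannon hμ).lim_le_div hb (Nat.succ_ne_zero n)

/-- the criterion for `M(μ) = h(μ)` -/
theorem uniformGain_eq {μ : G → ℝ} (hμ : FinEnt μ)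
    (h : ∀ ε > 0, ∃ A : ℝ, ∀ n : ℕ,
      shannon (cpow μ (n + 1)) ≤ gain (cpow μ (n + 1)) + A + ε * ((n + 1 : ℕ) : ℝ)) :
    uniformGain μ = asympEntropy μ := by
  refine le_antisymm (uniformGain_le hμ) (le_of_forall_pos_le_add fun ε hε => ?_)
  obtain ⟨A, hA⟩ := h ε hε
  have hn : ∀ n : ℕ, asympEntropy μ ≤ uniformGain μ + ε + A / ((n + 1 : ℕ) : ℝ) := fun n => by
    have h5 := asympEntropy_le_div hμ n
    have h2 : gain (cpow μ (n + 1)) / ((n + 1 : ℕ) : ℝ) ≤ uniformGain μ := le_ciSup (bddAbove_gain hμ) n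
    have hn : (0 : ℝ) < ((n + 1 : ℕ) : ℝ) := by positivity
    rw [le_div_iff₀ hn] at h5
    rw [div_le_iff₀ hn] at h2
    have h3 := hA n
    have h7 : A = A / ((n + 1 : ℕ) : ℝ) * ((n + 1 : ℕ) : ℝ) := by field_simp
    have h6 : asympEntropy μ * ((n + 1 : ℕ) : ℝ) ≤ (uniformGain μ + ε) * ((n + 1 : ℕ) : ℝ) + A := by
      linarith
    rw [h7, ← add_mul] at h6
    exact le_of_mul_le_mul_right h6 hn
  have hlim : Tendsto (fun n : ℕ => uniformGain μ + ε + A / ((n + 1 : ℕ) : ℝ)) atTop (nhds (uniformGain μ + ε + 0)) := by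
    refine tendsto_const_nhds.add ?_
    exact (tendsto_const_div_atTop_nhds_zero_nat A).comp (tendsto_add_atTop_nat 1)
  rw [add_zero] at hlim
  exact ge_of_tendsto' hlim hn

/-- `log (1 + c ℓ)` is subadditive -/
theorem isLength_log {ℓ : G → ℝ} (hℓ : IsLength ℓ) {c : ℝ} (hc : 0 ≤ c) : IsLength fun g => Real.log (1 + c * ℓ g) := by
  refine ⟨fun g => Real.log_nonneg (by have := mul_nonneg hc (hℓ.nonneg g); linarith), fun g h => ?_⟩
  have h1 := mul_nonneg hc (hℓ.nonneg g)
  have h2 := mul_nonneg hc (hℓ.nonneg h)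
  have h3 := mul_nonneg hc (hℓ.nonneg (g * h))
  rw [← Real.log_mul (by linarith) (by linarith)]
  refine Real.log_le_log (by linarith) ?_
  have h4 := mul_le_mul_of_nonneg_left (hℓ.mul_le g h) hc
  nlinarith [mul_nonneg h1 h2]

theorem isLength_log_one {ℓ : G → ℝ} (hℓ : IsLength ℓ) : IsLength fun g => Real.log (1 + ℓ g) := by
  simpa using isLength_log hℓ zero_le_one

theorem RapidDecay.pos {ℓ : G → ℝ} {C s : ℝ} (hℓ : IsLength ℓ) (h : RapidDecay ℓ C s) : 0 < C := by
  have h1 := DecayWeight.one_le h 1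
  have h2 : 0 ≤ (1 + ℓ 1) ^ s := Real.rpow_nonneg (by have := hℓ.nonneg 1; linarith) s
  by_contra h3
  push Not at h3
  nlinarith [mul_nonneg (sub_nonneg.2 h3) h2]

/-- rapid decay implies its entropic form -/
theorem RapidDecay.entropic {ℓ : G → ℝ} {C s : ℝ} (hℓ : IsLength ℓ) (h : RapidDecay ℓ C s) :
    EntropicDecay ℓ (Real.log C) s := by
  intro μ σ hμ hσ hm
  have hC := h.pos hℓ
  have h3 : HasSum (fun g => μ g * Real.log (C * (1 + ℓ g) ^ s))
      (Real.log C + s * ∑' g, μ g * Real.log (1 + ℓ g)) := by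
    have h4 := (hμ.hasSum.mul_right (Real.log C)).add (hm.hasSum.mul_left s)
    rw [one_mul] at h4
    refine h4.congr_fun fun g => ?_
    have h5 : 0 < 1 + ℓ g := by have := hℓ.nonneg g; linarith
    rw [Real.log_mul hC.ne' (Real.rpow_pos_of_pos h5 s).ne', Real.log_rpow h5]
    ring
  have h4 := shannon_decay hμ hσ h h3.summable
  rw [h3.tsum_eq] at h4
  linarith

/-- subexponential decay implies its entropic form -/
theorem SubexpDecay.entropic {ℓ : G → ℝ} (h : SubexpDecay ℓ) : EntropicSubexp ℓ := by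
  intro ε hε
  obtain ⟨C, hC⟩ := h ε hε
  have hC0 : 0 < C := by
    have h1 := hC.one_le 1
    have h2 := Real.exp_pos (ε * ℓ 1)
    by_contra h3
    push Not at h3
    nlinarith [mul_nonneg (sub_nonneg.2 h3) h2.le]
  refine ⟨Real.log C, fun μ σ hμ hσ hm => ?_⟩
  have h3 : HasSum (fun g => μ g * Real.log (C * Real.exp (ε * ℓ g))) (Real.log C + ε * ∑' g, μ g * ℓ g) := by
    have h4 := (hμ.hasSum.mul_right (Real.log C)).add (hm.hasSum.mul_left ε)
    rw [one_mul] at h4
    refine h4.congr_fun fun g => ?_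
    rw [Real.log_mul hC0.ne' (Real.exp_pos _).ne', Real.log_exp]
    ring
  have h4 := shannon_decay hμ hσ hC h3.summable
  rw [h3.tsum_eq] at h4
  linarith

/-- entropic rapid decay implies entropic subexponential decay -/
theorem EntropicDecay.subexp {ℓ : G → ℝ} {B s : ℝ} (hℓ : IsLength ℓ) (hs0 : 0 ≤ s) (h : EntropicDecay ℓ B s) :
    EntropicSubexp ℓ := by
  intro ε hε
  have hlog0 : ∀ g, 0 ≤ Real.log (1 + ℓ g) := (isLength_log_one hℓ).nonneg
  rcases hs0.eq_or_lt with h0 | h0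
  · refine ⟨B, fun μ σ hμ hσ hm => ?_⟩
    have hlog : ∀ g, Real.log (1 + ℓ g) ≤ ℓ g := fun g => by
      have := Real.log_le_sub_one_of_pos (show 0 < 1 + ℓ g by have := hℓ.nonneg g; linarith)
      linarith
    have hm2 : Summable fun g => μ g * Real.log (1 + ℓ g) :=
      Summable.of_nonneg_of_le (fun g => mul_nonneg (hμ.nonneg g) (hlog0 g))
        (fun g => mul_le_mul_of_nonneg_left (hlog g) (hμ.nonneg g)) hm
    have h1 := h μ σ hμ hσ hm2
    rw [← h0, zero_mul] at h1
    have h2 : 0 ≤ ∑' g, μ g * ℓ g := tsum_nonneg fun g => mul_nonneg (hμ.nonneg g) (hℓ.nonneg g)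
    nlinarith [mul_nonneg hε.le h2]
  · -- `log (1 + t) ≤ log A + (1 + t) / A - 1` with `A = s / ε + 1`
    set A : ℝ := s / ε + 1 with hA
    have hA0 : 0 < A := by positivity
    have hlog : ∀ g, Real.log (1 + ℓ g) ≤ (Real.log A + 1 / A - 1) + 1 / A * ℓ g := fun g => by
      have h6 : 0 < 1 + ℓ g := by have := hℓ.nonneg g; linarith
      have h7 := Real.log_le_sub_one_of_pos (div_pos h6 hA0)
      rw [Real.log_div h6.ne' hA0.ne', add_div] at h7
      have h8 : ℓ g / A = 1 / A * ℓ g := by ring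
      linarith
    refine ⟨B + s * (Real.log A + 1 / A - 1), fun μ σ hμ hσ hm => ?_⟩
    have h3 : HasSum (fun g => μ g * ((Real.log A + 1 / A - 1) + 1 / A * ℓ g))
        ((Real.log A + 1 / A - 1) + 1 / A * ∑' g, μ g * ℓ g) := by
      have h4 := (hμ.hasSum.mul_right (Real.log A + 1 / A - 1)).add (hm.hasSum.mul_left (1 / A))
      rw [one_mul] at h4
      refine h4.congr_fun fun g => ?_
      ring
    have hm2 : Summable fun g => μ g * Real.log (1 + ℓ g) :=
      Summable.of_nonneg_of_le (fun g => mul_nonneg (hμ.nonneg g) (hlog0 g))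
        (fun g => mul_le_mul_of_nonneg_left (hlog g) (hμ.nonneg g)) h3.summable
    have h1 := h μ σ hμ hσ hm2
    have h5 := hm2.tsum_le_tsum (fun g => mul_le_mul_of_nonneg_left (hlog g) (hμ.nonneg g)) h3.summable
    rw [h3.tsum_eq] at h5
    have h6 : 0 ≤ ∑' g, μ g * ℓ g := tsum_nonneg fun g => mul_nonneg (hμ.nonneg g) (hℓ.nonneg g)
    have h7 := mul_le_mul_of_nonneg_left h5 hs0
    have h8 : s * (1 / A) ≤ ε := by
      rw [mul_one_div, div_le_iff₀ hA0, hA, mul_add, mul_div_cancel₀ _ hε.ne']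
      linarith
    have h9 := mul_le_mul_of_nonneg_right h8 h6
    nlinarith

/-- entropic rapid decay and a finite logarithmic moment -/
theorem uniformGain_rapid {μ ℓ : G → ℝ} {B s : ℝ} (hμ : FinEnt μ) (hℓ : IsLength ℓ) (hs0 : 0 ≤ s)
    (h : EntropicDecay ℓ B s) (hm : Summable fun g => μ g * Real.log (1 + ℓ g)) :
    uniformGain μ = asympEntropy μ := by
  refine uniformGain_eq hμ fun ε hε => ?_
  -- `V_K = log (1 + exp (-K) ℓ)`
  have hV : ∀ K : ℕ, IsLength fun g => Real.log (1 + Real.exp (-K) * ℓ g) := fun K =>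
    isLength_log hℓ (Real.exp_pos _).le
  have hle : ∀ (K : ℕ) g, Real.log (1 + Real.exp (-K) * ℓ g) ≤ Real.log (1 + ℓ g) := fun K g => by
    have h1 := hℓ.nonneg g
    have h2 : Real.exp (-(K : ℝ)) ≤ 1 := Real.exp_le_one_iff.2 (by simp)
    have h3 := mul_nonneg (Real.exp_pos (-(K : ℝ))).le h1
    refine Real.log_le_log (by linarith) ?_
    nlinarith
  have hsum : ∀ K : ℕ, Summable fun g => μ g * Real.log (1 + Real.exp (-K) * ℓ g) := fun K =>
    Summable.of_nonneg_of_le (fun g => mul_nonneg (hμ.nonneg g) ((hV K).nonneg g))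
      (fun g => mul_le_mul_of_nonneg_left (hle K g) (hμ.nonneg g)) hm
  have hlim : Tendsto (fun K : ℕ => ∑' g, μ g * Real.log (1 + Real.exp (-K) * ℓ g)) atTop
      (nhds (∑' g : G, (0 : ℝ))) := by
    refine tendsto_tsum_of_dominated_convergence hm (fun g => ?_) (Eventually.of_forall fun K g => ?_)
    · have h1 : Tendsto (fun K : ℕ => Real.exp (-(K : ℝ))) atTop (nhds 0) :=
        Real.tendsto_exp_atBot.comp (tendsto_neg_atTop_atBot.comp tendsto_natCast_atTop_atTop)
      have h2 : Tendsto (fun K : ℕ => 1 + Real.exp (-(K : ℝ)) * ℓ g) atTop (nhds (1 + 0 * ℓ g)) :=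
        tendsto_const_nhds.add (h1.mul_const _)
      have h3 := (Real.continuousAt_log (x := 1 + 0 * ℓ g) (by simp)).tendsto.comp h2
      have h4 := h3.const_mul (μ g)
      simpa using h4
    · rw [Real.norm_of_nonneg (mul_nonneg (hμ.nonneg g) ((hV K).nonneg g))]
      exact mul_le_mul_of_nonneg_left (hle K g) (hμ.nonneg g)
  rw [tsum_zero] at hlim
  have hδ : 0 < ε / (s + 1) := div_pos hε (by linarith)
  obtain ⟨K, hK⟩ := (hlim.eventually_lt_const hδ).exists
  refine ⟨B + s * K, fun n => ?_⟩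
  have hp := isProb_cpow hμ.isProb (n + 1)
  obtain ⟨h1, h2⟩ := moment_cpow hμ.isProb (hV K) (hsum K) n
  obtain ⟨h1', -⟩ := moment_cpow hμ.isProb (isLength_log_one hℓ) hm n
  have hn : (0 : ℝ) < ((n + 1 : ℕ) : ℝ) := by positivity
  -- `log (1 + ℓ) ≤ K + V_K`
  have hKV : ∀ g, Real.log (1 + ℓ g) ≤ K + Real.log (1 + Real.exp (-K) * ℓ g) := fun g => by
    have h3 := hℓ.nonneg g
    have h4 := mul_nonneg (Real.exp_pos (-(K : ℝ))).le h3
    have h5 : Real.exp (K : ℝ) * (1 + Real.exp (-K) * ℓ g) = Real.exp K + ℓ g := by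
      rw [mul_add, ← mul_assoc, ← Real.exp_add]
      simp
    have h6 : (1 : ℝ) ≤ Real.exp K := Real.one_le_exp (Nat.cast_nonneg K)
    calc Real.log (1 + ℓ g) ≤ Real.log (Real.exp (K : ℝ) * (1 + Real.exp (-K) * ℓ g)) :=
          Real.log_le_log (by linarith) (by rw [h5]; linarith)
      _ = K + Real.log (1 + Real.exp (-K) * ℓ g) := by
          rw [Real.log_mul (Real.exp_pos _).ne' (by linarith), Real.log_exp]
  have h3 : HasSum (fun g => cpow μ (n + 1) g * (K + Real.log (1 + Real.exp (-K) * ℓ g)))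
      (K + ∑' g, cpow μ (n + 1) g * Real.log (1 + Real.exp (-K) * ℓ g)) := by
    have h4 := (hp.hasSum.mul_right (K : ℝ)).add h1.hasSum
    rw [one_mul] at h4
    refine h4.congr_fun fun g => ?_
    ring
  have h4 := h1'.tsum_le_tsum (fun g => mul_le_mul_of_nonneg_left (hKV g) (hp.nonneg g)) h3.summable
  rw [h3.tsum_eq] at h4
  have h5 : shannon (cpow μ (n + 1)) - (B + s * ∑' g, cpow μ (n + 1) g * Real.log (1 + ℓ g)) ≤
      gain (cpow μ (n + 1)) := le_gain fun σ hσ => by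
    have := h _ σ (hμ.cpow (n + 1)) hσ h1'
    linarith
  have h6 := mul_le_mul_of_nonneg_left (h4.trans (add_le_add le_rfl (h2.trans
    (mul_le_mul_of_nonneg_left hK.le hn.le)))) hs0
  have h7 : s * (ε / (s + 1)) ≤ ε := by
    rw [mul_div_assoc', div_le_iff₀ (by linarith)]
    nlinarith
  have h8 := mul_le_mul_of_nonneg_right h7 hn.le
  nlinarith

/-- entropic subexponential decay and a finite first moment -/
theorem uniformGain_subexp {μ ℓ : G → ℝ} (hμ : FinEnt μ) (hℓ : IsLength ℓ) (h : EntropicSubexp ℓ)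
    (hm : Summable fun g => μ g * ℓ g) : uniformGain μ = asympEntropy μ := by
  refine uniformGain_eq hμ fun ε hε => ?_
  have hL : 0 ≤ ∑' g, μ g * ℓ g := tsum_nonneg fun g => mul_nonneg (hμ.nonneg g) (hℓ.nonneg g)
  set L := ∑' g, μ g * ℓ g with hLdef
  have hε' : 0 < ε / (L + 1) := div_pos hε (by linarith)
  obtain ⟨B, hB⟩ := h _ hε'
  refine ⟨B, fun n => ?_⟩
  obtain ⟨h1, h2⟩ := moment_cpow hμ.isProb hℓ hm n
  rw [← hLdef] at h2
  have hn : (0 : ℝ) < ((n + 1 : ℕ) : ℝ) := by positivity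
  have h5 : shannon (cpow μ (n + 1)) - (B + ε / (L + 1) * ∑' g, cpow μ (n + 1) g * ℓ g) ≤
      gain (cpow μ (n + 1)) := le_gain fun σ hσ => by
    have := hB _ σ (hμ.cpow (n + 1)) hσ h1
    linarith
  have h6 := mul_le_mul_of_nonneg_left h2 hε'.le
  have h7 : ε / (L + 1) * L ≤ ε := by
    rw [div_mul_eq_mul_div, div_le_iff₀ (by linarith)]
    nlinarith
  have h8 := mul_le_mul_of_nonneg_right h7 hn.le
  nlinarith

/-- the rate under entropic rapid decay: logarithmic moments -/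
theorem rate_log {μ ℓ : G → ℝ} {B s : ℝ} (hμ : FinEnt μ) (hℓ : IsLength ℓ)
    (h : EntropicDecay ℓ B s) (hm : Summable fun g => μ g * Real.log (1 + ℓ g)) (n : ℕ) :
    shannon (cpow μ (n + 1)) ≤ ((n + 1 : ℕ) : ℝ) * asympEntropy μ + B +
      s * ∑' g, cpow μ (n + 1) g * Real.log (1 + ℓ g) := by
  obtain ⟨h1, -⟩ := moment_cpow hμ.isProb (isLength_log_one hℓ) hm n
  have h5 : shannon (cpow μ (n + 1)) - (B + s * ∑' g, cpow μ (n + 1) g * Real.log (1 + ℓ g)) ≤
      gain (cpow μ (n + 1)) := le_gain fun σ hσ => by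
    have := h _ σ (hμ.cpow (n + 1)) hσ h1
    linarith
  have h2 := gain_div_le hμ n
  have hn : (0 : ℝ) < ((n + 1 : ℕ) : ℝ) := by positivity
  rw [div_le_iff₀ hn] at h2
  linarith

/-- the rate under entropic rapid decay: first moments -/
theorem rate_first {μ ℓ : G → ℝ} {B s : ℝ} (hμ : FinEnt μ) (hℓ : IsLength ℓ) (hs0 : 0 ≤ s)
    (h : EntropicDecay ℓ B s) (hm : Summable fun g => μ g * ℓ g) (n : ℕ) :
    shannon (cpow μ (n + 1)) ≤ ((n + 1 : ℕ) : ℝ) * asympEntropy μ + B +
      s * Real.log (1 + ((n + 1 : ℕ) : ℝ) * ∑' g, μ g * ℓ g) := by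
  have hL : 0 ≤ ∑' g, μ g * ℓ g := tsum_nonneg fun g => mul_nonneg (hμ.nonneg g) (hℓ.nonneg g)
  have hlog : ∀ g, Real.log (1 + ℓ g) ≤ ℓ g := fun g => by
    have := Real.log_le_sub_one_of_pos (show 0 < 1 + ℓ g by have := hℓ.nonneg g; linarith)
    linarith
  have hlog0 : ∀ g, 0 ≤ Real.log (1 + ℓ g) := fun g => Real.log_nonneg (by have := hℓ.nonneg g; linarith)
  have hm2 : Summable fun g => μ g * Real.log (1 + ℓ g) :=
    Summable.of_nonneg_of_le (fun g => mul_nonneg (hμ.nonneg g) (hlog0 g))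
      (fun g => mul_le_mul_of_nonneg_left (hlog g) (hμ.nonneg g)) hm
  refine (rate_log hμ hℓ h hm2 n).trans (add_le_add le_rfl (mul_le_mul_of_nonneg_left ?_ hs0))
  obtain ⟨h1, h2⟩ := moment_cpow hμ.isProb hℓ hm n
  have hp := isProb_cpow hμ.isProb (n + 1)
  set A : ℝ := 1 + ((n + 1 : ℕ) : ℝ) * ∑' g, μ g * ℓ g with hA
  have hA0 : 0 < A := by positivity
  -- `log (1 + t) ≤ log A + (1 + t) / A - 1`
  have h3 : HasSum (fun g => cpow μ (n + 1) g * (Real.log A + (1 + ℓ g) / A - 1))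
      (Real.log A + (1 + ∑' g, cpow μ (n + 1) g * ℓ g) / A - 1) := by
    have h4 := ((hp.hasSum.mul_right (Real.log A + 1 / A - 1)).add (h1.hasSum.mul_right (1 / A)))
    have h5 : (1 : ℝ) * (Real.log A + 1 / A - 1) + (∑' g, cpow μ (n + 1) g * ℓ g) * (1 / A) =
        Real.log A + (1 + ∑' g, cpow μ (n + 1) g * ℓ g) / A - 1 := by ring
    rw [h5] at h4
    refine h4.congr_fun fun g => ?_
    ring
  obtain ⟨h4, -⟩ := moment_cpow hμ.isProb (isLength_log_one hℓ) hm2 n
  have h5 : ∑' g, cpow μ (n + 1) g * Real.log (1 + ℓ g) ≤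
      Real.log A + (1 + ∑' g, cpow μ (n + 1) g * ℓ g) / A - 1 := by
    rw [← h3.tsum_eq]
    refine h4.tsum_le_tsum (fun g => mul_le_mul_of_nonneg_left ?_ (hp.nonneg g)) h3.summable
    have h6 : 0 < 1 + ℓ g := by have := hℓ.nonneg g; linarith
    have h7 := Real.log_le_sub_one_of_pos (div_pos h6 hA0)
    rw [Real.log_div h6.ne' hA0.ne'] at h7
    linarith
  refine h5.trans ?_
  have h6 : (1 + ∑' g, cpow μ (n + 1) g * ℓ g) / A ≤ 1 := by
    rw [div_le_one hA0]
    linarith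
  linarith

end group

end Pool.MP_0e3657_pr
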