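import Pool.Agent.Lib_MP_0e3657_rd.Moment

/-!
# MP_0e3657_pr: upper semicontinuity of the asymptotic entropy (Amir-Angel-Virag)

If `μ_k → μ` pointwise and `H(μ_k) → H(μ)` then `H(μ_k^{*n}) → H(μ^{*n})` for every `n`, and `limsup h(μ_k) ≤ h(μ)`.
-/

set_option autoImplicit false

open scoped ENNReal
open Filter

namespace Pool.MP_0e3657_pr

section limits

variable {X : Type*}

/-- lower semicontinuity of the Shannon entropy -/
theorem eventually_shannon {p : X → ℝ} {pk : ℕ → X → ℝ} (hp : FinEnt p) (hk : ∀ k, FinEnt (pk k))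
    (hlim : ∀ x, Tendsto (fun k => pk k x) atTop (nhds (p x))) {ε : ℝ} (hε : 0 < ε) :
    ∀ᶠ k in atTop, shannon p - ε < shannon (pk k) := by
  have h1 : ∀ᶠ F : Finset X in atTop, shannon p - ε < ∑ x ∈ F, Real.negMulLog (p x) :=
    hp.summable.hasSum.eventually_const_lt (by unfold shannon; linarith)
  obtain ⟨F, hF⟩ := h1.exists
  have h2 : Tendsto (fun k => ∑ x ∈ F, Real.negMulLog (pk k x)) atTop (nhds (∑ x ∈ F, Real.negMulLog (p x))) :=
    tendsto_finsetSum F fun x _ => (Real.continuous_negMulLog.tendsto _).comp (hlim x)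
  filter_upwards [h2.eventually_const_lt hF] with k hk2
  refine lt_of_lt_of_le hk2 ?_
  exact (hk k).summable.sum_le_tsum F fun x _ => negMulLog_nonneg' ((hk k).nonneg x) ((hk k).isProb.le_one x)

/-- the reverse modulus tends to `0` when the entropies converge -/
theorem tendsto_modulus_rev' {p : X → ℝ} {pk : ℕ → X → ℝ} (hp : FinEnt p) (hk : ∀ k, FinEnt (pk k))
    (hlim : ∀ x, Tendsto (fun k => pk k x) atTop (nhds (p x)))
    (hH : Tendsto (fun k => shannon (pk k)) atTop (nhds (shannon p))) :
    Tendsto (fun k => Φ (∑' x, min (pk k x) (p x)) + ∑' x, Φ (pk k x - min (pk k x) (p x))) atTop (nhds 0) := by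
  have hb : ∀ k x, 0 ≤ pk k x - min (pk k x) (p x) := fun k x => sub_nonneg.2 (min_le_left _ _)
  have hb2 : ∀ k x, pk k x - min (pk k x) (p x) ≤ pk k x := fun k x => by
    have := le_min ((hk k).nonneg x) (hp.nonneg x)
    linarith
  have hn : ∀ k x, 0 ≤ Real.negMulLog (pk k x - min (pk k x) (p x)) := fun k x =>
    negMulLog_nonneg' (hb k x) ((hb2 k x).trans ((hk k).isProb.le_one x))
  have hle : ∀ k x, Real.negMulLog (pk k x - min (pk k x) (p x)) ≤ Real.negMulLog (pk k x) + pk k x := fun k x =>
    negMulLog_le_of_le (hb k x) (hb2 k x) ((hk k).isProb.le_one x)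
  have hq0 : ∀ k x, 0 ≤ Real.negMulLog (pk k x) + pk k x := fun k x =>
    add_nonneg (negMulLog_nonneg' ((hk k).nonneg x) ((hk k).isProb.le_one x)) ((hk k).nonneg x)
  have hbs : ∀ k, HasSum (fun x => Real.negMulLog (pk k x) + pk k x) (shannon (pk k) + 1) := fun k =>
    (hk k).summable.hasSum.add (hk k).hasSum
  have hbs0 : HasSum (fun x => Real.negMulLog (p x) + p x) (shannon p + 1) := hp.summable.hasSum.add hp.hasSum
  have hs : ∀ k, Summable fun x => Real.negMulLog (pk k x - min (pk k x) (p x)) := fun k =>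
    Summable.of_nonneg_of_le (hn k) (hle k) (hbs k).summable
  have hmin : Tendsto (fun k => ∑' x, min (pk k x) (p x)) atTop (nhds 1) := by
    have h := tendsto_min hp.isProb (fun k => (hk k).isProb) hlim
    simp_rw [min_comm (p _)] at h
    exact h
  have h3 : Tendsto (fun k => Φ (∑' x, min (pk k x) (p x))) atTop (nhds 0) := by
    have h4 := (ENNReal.continuous_ofReal.comp Real.continuous_negMulLog).tendsto 1
    have h5 := h4.comp hmin
    simp only [Function.comp, Real.negMulLog_one, ENNReal.ofReal_zero] at h5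
    exact h5
  -- the real sums tend to `0`
  have hT : Tendsto (fun k => ∑' x, Real.negMulLog (pk k x - min (pk k x) (p x))) atTop (nhds 0) := by
    refine tendsto_order.2 ⟨fun a ha => Eventually.of_forall fun k => lt_of_lt_of_le ha (tsum_nonneg (hn k)),
      fun ε hε => ?_⟩
    have h1 : ∀ᶠ F : Finset X in atTop, shannon p + 1 - ε / 2 < ∑ x ∈ F, (Real.negMulLog (p x) + p x) :=
      hbs0.eventually_const_lt (by linarith)
    obtain ⟨F, hF⟩ := h1.exists
    have h4 : Tendsto (fun k => (∑ x ∈ F, Real.negMulLog (pk k x - min (pk k x) (p x))) +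
        (shannon (pk k) + 1 - ∑ x ∈ F, (Real.negMulLog (pk k x) + pk k x))) atTop
        (nhds ((∑ x ∈ F, Real.negMulLog (p x - min (p x) (p x))) +
          (shannon p + 1 - ∑ x ∈ F, (Real.negMulLog (p x) + p x)))) := by
      refine Tendsto.add (tendsto_finsetSum F fun x _ => ?_) (Tendsto.sub (hH.add_const 1)
        (tendsto_finsetSum F fun x _ => ?_))
      · exact (Real.continuous_negMulLog.tendsto _).comp ((hlim x).sub ((hlim x).min tendsto_const_nhds))
      · exact ((Real.continuous_negMulLog.tendsto _).comp (hlim x)).add (hlim x)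
    have h5 : ∑ x ∈ F, Real.negMulLog (p x - min (p x) (p x)) = 0 := by
      simp [min_self]
    rw [h5, zero_add] at h4
    filter_upwards [h4.eventually_lt_const (show shannon p + 1 - ∑ x ∈ F, (Real.negMulLog (p x) + p x) < ε by linarith)]
      with k hk2
    refine lt_of_le_of_lt ?_ hk2
    have h6 := (hs k).sum_add_tsum_compl (s := F)
    have h7 := (hbs k).summable.sum_add_tsum_compl (s := F)
    rw [(hbs k).tsum_eq] at h7
    have h8 : ∑' x : ↑((F : Set X)ᶜ), Real.negMulLog (pk k x - min (pk k x) (p x)) ≤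
        ∑' x : ↑((F : Set X)ᶜ), (Real.negMulLog (pk k x) + pk k x) :=
      ((hs k).subtype _).tsum_le_tsum (fun x => hle k x) ((hbs k).summable.subtype _)
    linarith
  have h2 : ∀ k, ∑' x, Φ (pk k x - min (pk k x) (p x)) =
      ENNReal.ofReal (∑' x, Real.negMulLog (pk k x - min (pk k x) (p x))) := fun k => by
    rw [ENNReal.ofReal_tsum_of_nonneg (hn k) (hs k)]
    rfl
  have h4 : Tendsto (fun k => ∑' x, Φ (pk k x - min (pk k x) (p x))) atTop (nhds 0) := by
    simp_rw [h2]
    have h5 := (ENNReal.continuous_ofReal.tendsto 0).comp hT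
    rwa [ENNReal.ofReal_zero] at h5
  have h5 := h3.add h4
  rwa [add_zero] at h5

end limits

section group

variable {G : Type*} [Group G]

theorem tendsto_modulus_rev {μ : G → ℝ} {μk : ℕ → G → ℝ} (hμ : FinEnt μ) (hk : ∀ k, FinEnt (μk k))
    (hlim : ∀ g, Tendsto (fun k => μk k g) atTop (nhds (μ g)))
    (hH : Tendsto (fun k => shannon (μk k)) atTop (nhds (shannon μ))) :
    Tendsto (fun k => modulus (μk k) μ) atTop (nhds 0) := tendsto_modulus_rev' hμ hk hlim hH

/-- the entropies of the convolutions converge -/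
theorem tendsto_shannon_conv {μ σ : G → ℝ} {μk σk : ℕ → G → ℝ} (hμ : FinEnt μ) (hσ : FinEnt σ)
    (hk : ∀ k, FinEnt (μk k)) (hσk : ∀ k, FinEnt (σk k))
    (hlim : ∀ g, Tendsto (fun k => μk k g) atTop (nhds (μ g)))
    (hlim2 : ∀ g, Tendsto (fun k => σk k g) atTop (nhds (σ g)))
    (hH : Tendsto (fun k => shannon (μk k)) atTop (nhds (shannon μ)))
    (hH2 : Tendsto (fun k => shannon (σk k)) atTop (nhds (shannon σ))) :
    Tendsto (fun k => shannon (conv (μk k) (σk k))) atTop (nhds (shannon (conv μ σ))) := by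
  have hc := hμ.conv hσ
  have hlim3 : ∀ g, Tendsto (fun k => conv (μk k) (σk k) g) atTop (nhds (conv μ σ g)) := fun g =>
    conv_tendsto hμ.isProb (fun k => (hk k).isProb) hlim (fun k => (hσk k).isProb) hlim2 g
  refine tendsto_order.2 ⟨fun a ha => ?_, fun a ha => ?_⟩
  · have := eventually_shannon hc (fun k => (hk k).conv (hσk k)) hlim3 (ε := shannon (conv μ σ) - a) (by linarith)
    filter_upwards [this] with k hk2
    linarith
  · have h1 := tendsto_modulus_rev hμ hk hlim hH
    have h2 := tendsto_modulus_rev hσ hσk hlim2 hH2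
    have h3 := h1.add h2
    rw [add_zero] at h3
    have h4 : ∀ᶠ k in atTop, modulus (μk k) μ + modulus (σk k) σ < ENNReal.ofReal (a - shannon (conv μ σ)) :=
      h3.eventually_lt_const (by rw [ENNReal.ofReal_pos]; linarith)
    filter_upwards [h4] with k hk2
    have h5 : entE (conv (μk k) (σk k)) ≤ entE (conv μ σ) + (modulus (μk k) μ + modulus (σk k) σ) := by
      have e1 := entE_compare (hk k).isProb hμ.isProb (hσk k).isProb (summable_min (hk k).isProb hμ.isProb).hasSum
      have e2 := entE_compare_right (hσk k).isProb hσ.isProb hμ.isProb (summable_min (hσk k).isProb hσ.isProb).hasSum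
      have e3 : entE (conv (μk k) (σk k)) ≤ entE (conv μ (σk k)) + modulus (μk k) μ := e1
      have e4 : entE (conv μ (σk k)) ≤ entE (conv μ σ) + modulus (σk k) σ := e2
      calc _ ≤ _ := e3
        _ ≤ (entE (conv μ σ) + modulus (σk k) σ) + modulus (μk k) μ := add_le_add e4 le_rfl
        _ = _ := by rw [add_assoc, add_comm (modulus (σk k) σ)]
    have hne : modulus (μk k) μ + modulus (σk k) σ ≠ ⊤ := ne_top_of_lt hk2
    have h6 := ENNReal.toReal_mono (ENNReal.add_ne_top.2 ⟨hc.ne_top, hne⟩) h5
    rw [ENNReal.toReal_add hc.ne_top hne, ← hc.shannon_eq, ← ((hk k).conv (hσk k)).shannon_eq] at h6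
    have h7 : (modulus (μk k) μ + modulus (σk k) σ).toReal < a - shannon (conv μ σ) := by
      have := (ENNReal.toReal_lt_toReal hne ENNReal.ofReal_ne_top).2 hk2
      rwa [ENNReal.toReal_ofReal (by linarith)] at this
    linarith

/-- the entropies of the convolution powers converge -/
theorem tendsto_shannon_cpow {μ : G → ℝ} {μk : ℕ → G → ℝ} (hμ : FinEnt μ) (hk : ∀ k, FinEnt (μk k))
    (hlim : ∀ g, Tendsto (fun k => μk k g) atTop (nhds (μ g)))
    (hH : Tendsto (fun k => shannon (μk k)) atTop (nhds (shannon μ))) (n : ℕ) :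
    Tendsto (fun k => shannon (cpow (μk k) n)) atTop (nhds (shannon (cpow μ n))) := by
  induction n with
  | zero =>
    have h : ∀ k, cpow (μk k) 0 = cpow μ 0 := fun k => rfl
    simp_rw [h]
    exact tendsto_const_nhds
  | succ n ih =>
    exact tendsto_shannon_conv hμ (hμ.cpow n) hk (fun k => (hk k).cpow n) hlim
      (fun g => cpow_tendsto hμ.isProb (fun k => (hk k).isProb) hlim n g) hH ih

/-- upper semicontinuity of the asymptotic entropy -/
theorem eventually_upper {μ : G → ℝ} {μk : ℕ → G → ℝ} (hμ : FinEnt μ) (hk : ∀ k, FinEnt (μk k))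
    (hlim : ∀ g, Tendsto (fun k => μk k g) atTop (nhds (μ g)))
    (hH : Tendsto (fun k => shannon (μk k)) atTop (nhds (shannon μ))) {a : ℝ} (ha : asympEntropy μ < a) :
    ∀ᶠ k in atTop, asympEntropy (μk k) < a := by
  have h1 := ((tendsto_asympEntropy hμ).comp (tendsto_add_atTop_nat 1)).eventually_lt_const ha
  obtain ⟨n, hn⟩ := h1.exists
  simp only [Function.comp] at hn
  have h2 := (tendsto_shannon_cpow hμ hk hlim hH (n + 1)).div_const ((n + 1 : ℕ) : ℝ)
  filter_upwards [h2.eventually_lt_const hn] with k hk2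
  exact lt_of_le_of_lt (asympEntropy_le_div (hk k) n) hk2

/-- continuity of the asymptotic entropy at a measure whose uniform gain is its asymptotic entropy -/
theorem tendsto_of_gain {μ : G → ℝ} {μk : ℕ → G → ℝ} (hμ : FinEnt μ) (h : uniformGain μ = asympEntropy μ)
    (hk : ∀ k, FinEnt (μk k)) (hlim : ∀ g, Tendsto (fun k => μk k g) atTop (nhds (μ g)))
    (hH : Tendsto (fun k => shannon (μk k)) atTop (nhds (shannon μ))) :
    Tendsto (fun k => asympEntropy (μk k)) atTop (nhds (asympEntropy μ)) := by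
  refine tendsto_order.2 ⟨fun a ha => ?_, fun a ha => eventually_upper hμ hk hlim hH ha⟩
  have h1 := eventually_lower hμ hk hlim (ε := (asympEntropy μ - a) / 2) (by linarith)
  filter_upwards [h1] with k hk2
  have h3 := uniformGain_le (hk k)
  rw [h] at hk2
  linarith

end group

end Pool.MP_0e3657_pr
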